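import Mathlib
import Pool.Agent.Y359.PE.Pow

/-!
# Entropies of products of elements of several sets
-/

set_option autoImplicit false

namespace Pool.Agent.Q247.KP

open Finset Pool.Agent.Y359.PE
open scoped Classical

/-- **Several independent vectors.** -/
theorem kdist {α ι : Type} {V : Type} [AddCommGroup V] {τ θ : ℝ} (hτ : 0 ≤ τ) (hθ : 0 < θ)
    (hθ1 : θ ≤ 1 / 3) (K : ℕ) (hκ : 2 / Real.log (1 / θ) + K * τ / θ ≤ 1) (T : Finset ι)
    (k : ℕ) (hk : 1 ≤ k) (hkK : k ≤ K) :
    ∀ (A : Fin k → Finset α) (X : Fin k → α → ι → V), (∀ i, (A i).Nonempty) →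
    (∀ i, ∀ p ∈ T, (nz (A i) (fun a => X i a p) : ℝ) ≤ τ * (A i).card) →
    ∃ (β : Type) (B : Finset β) (Y : β → ι → V), B.Nonempty ∧
      (∀ b ∈ B, ∃ f : Fin k → α, (∀ i, f i ∈ A i) ∧ Y b = ∑ i, X i (f i)) ∧
      (∀ p ∈ T, (nz B (fun b => Y b p) : ℝ) ≤ k * τ * B.card) ∧
      (1 - 2 / Real.log (1 / θ) - K * τ / θ) ^ (k - 1) * ∑ i, h (A i) (mk T (X i)) ≤
        h B (mk T Y) := by
  induction k, hk using Nat.le_induction with
  | base =>
    intro A X hA hX
    refine ⟨α, A 0, X 0, hA 0, fun b hb => ⟨fun _ => b, fun i => ?_, by simp⟩, fun p hp => ?_, ?_⟩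
    · have : i = 0 := Subsingleton.elim _ _
      rw [this]
      exact hb
    · have := hX 0 p hp
      simpa using this
    · simp
  | succ k hk ih =>
    intro A X hA hX
    obtain ⟨β, B, Y, hB, h1, h2, h3⟩ := ih (by omega) (fun i => A i.succ) (fun i => X i.succ)
      (fun i => hA _) (fun i => hX _)
    refine ⟨α × β, A 0 ×ˢ B, fun s => X 0 s.1 + Y s.2, (hA 0).product hB, ?_, ?_, ?_⟩
    · rintro ⟨a, b⟩ hs
      obtain ⟨f, hf1, hf2⟩ := h1 b (mem_product.1 hs).2
      refine ⟨Fin.cons a f, ?_, ?_⟩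
      · intro i
        refine Fin.cases ?_ ?_ i
        · exact (mem_product.1 hs).1
        · intro j
          exact hf1 j
      · rw [Fin.sum_univ_succ]
        simp only [Fin.cons_zero, Fin.cons_succ]
        rw [← hf2]
    · intro p hp
      have e1 := nz_prod_le (A 0) B (fun a => X 0 a p) (fun b => Y b p)
      have e2 : (nz (A 0 ×ˢ B) (fun s => X 0 s.1 p + Y s.2 p) : ℝ) ≤
          nz (A 0) (fun a => X 0 a p) * B.card + (A 0).card * nz B (fun b => Y b p) := by
        exact_mod_cast e1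
      refine le_trans e2 ?_
      rw [card_product]
      push_cast
      have e3 := mul_le_mul_of_nonneg_right (hX 0 p hp) (show (0 : ℝ) ≤ B.card by positivity)
      have e4 := mul_le_mul_of_nonneg_left (h2 p hp) (show (0 : ℝ) ≤ (A 0).card by positivity)
      nlinarith
    · have hkK' : (k : ℝ) ≤ K := by exact_mod_cast (by omega : k ≤ K)
      have hK1 : (1 : ℝ) ≤ K := by exact_mod_cast (by omega : 1 ≤ K)
      have e1 := two (A 0) B (hA 0) hB (X 0) Y (τ := K * τ) hθ hθ1 T (fun p hp => by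
        refine (hX 0 p hp).trans ?_
        have : τ ≤ K * τ := by nlinarith
        exact mul_le_mul_of_nonneg_right this (by positivity)) (fun p hp => by
        refine (h2 p hp).trans ?_
        have : (k : ℝ) * τ ≤ K * τ := mul_le_mul_of_nonneg_right hkK' hτ
        exact mul_le_mul_of_nonneg_right this (by positivity))
      refine le_trans ?_ e1
      set c := 1 - 2 / Real.log (1 / θ) - K * τ / θ with hc
      have hc0 : 0 ≤ c := by rw [hc]; linarith
      have hc1 : c ≤ 1 := by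
        rw [hc]
        have hl : 0 < Real.log (1 / θ) := by
          refine Real.log_pos ?_
          rw [lt_div_iff₀ hθ]
          linarith
        have : 0 ≤ 2 / Real.log (1 / θ) := by positivity
        have : 0 ≤ K * τ / θ := by positivity
        linarith
      have hh := h_nonneg (A 0) (mk T (X 0))
      have hp1 : c ^ (k - 1) ≤ 1 := pow_le_one₀ hc0 hc1
      have hp0 : 0 ≤ c ^ (k - 1) := pow_nonneg hc0 _
      have e5 : c ^ (k + 1 - 1) = c * c ^ (k - 1) := by
        rw [← pow_succ']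
        congr 1
        omega
      rw [e5, Fin.sum_univ_succ]
      have e6 : c ^ (k - 1) * h (A 0) (mk T (X 0)) ≤ h (A 0) (mk T (X 0)) := by nlinarith
      calc c * c ^ (k - 1) * (h (A 0) (mk T (X 0)) + ∑ i : Fin k, h (A i.succ) (mk T (X i.succ)))
          = c * (c ^ (k - 1) * h (A 0) (mk T (X 0)) +
              c ^ (k - 1) * ∑ i : Fin k, h (A i.succ) (mk T (X i.succ))) := by ring
        _ ≤ c * (h (A 0) (mk T (X 0)) + h B (mk T Y)) := by
          refine mul_le_mul_of_nonneg_left ?_ hc0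
          linarith

/-- the set of the products `a₁ ⋯ a_k` with `a_i` in `A_i` -/
noncomputable def pks {k : ℕ} (A : Fin k → Finset ℤ) : Finset ℤ :=
  (Fintype.piFinset A).image fun f => ∏ i, f i

lemma pks_mono {k : ℕ} {A B : Fin k → Finset ℤ} (h : ∀ i, A i ⊆ B i) : pks A ⊆ pks B :=
  image_subset_image (Fintype.piFinset_subset _ _ h)

lemma pks_nonempty {k : ℕ} {A : Fin k → Finset ℤ} (h : ∀ i, (A i).Nonempty) :
    (pks A).Nonempty := (Fintype.piFinset_nonempty.2 h).image _

/-- **The entropy bound for products of `k` sets.** -/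
theorem prods_entropy {k : ℕ} (hk : 1 ≤ k) (A : Fin k → Finset ℤ) (hA : ∀ i, (A i).Nonempty)
    (h0 : ∀ i, (0 : ℤ) ∉ A i) (T : Finset ℕ)
    (e : Fin k → ℕ → ℕ) {τ θ : ℝ} (hτ : 0 ≤ τ) (hθ : 0 < θ) (hθ1 : θ ≤ 1 / 3)
    (hκ : 2 / Real.log (1 / θ) + k * τ / θ ≤ 1)
    (hT : ∀ i, ∀ p ∈ T, (((A i).filter fun a => fa a p ≠ e i p).card : ℝ) ≤ τ * (A i).card) :
    (1 - 2 / Real.log (1 / θ) - k * τ / θ) ^ (k - 1) * ∑ i, h (A i) (mk T (X (e i))) ≤
      Real.log (pks A).card := by
  obtain ⟨β, B, Y, hB, h1, -, h3⟩ := kdist (V := ℤ) hτ hθ hθ1 k hκ T k hk le_rfl A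
    (fun i => X (e i)) hA (fun i p hp => by
    rw [nz_X]
    exact hT i p hp)
  refine h3.trans ((h_le_log hB _).trans ?_)
  have himg : B.image (mk T Y) ⊆ (pks A).image
      (fun m : ℤ => fun p => if p ∈ T then (fa m p : ℤ) - ∑ i, (e i p : ℤ) else 0) := by
    intro v hv
    rw [mem_image] at hv
    obtain ⟨b, hb, rfl⟩ := hv
    obtain ⟨f, hf1, hf2⟩ := h1 b hb
    rw [mem_image]
    refine ⟨∏ i, f i, mem_image_of_mem _ (Fintype.mem_piFinset.2 hf1), ?_⟩
    funext p
    unfold Pool.Agent.Y359.PE.mk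
    split_ifs with hp
    · rw [hf2, fa_prod f (fun i => by
        intro h
        exact h0 i (h ▸ hf1 i))]
      rw [Finset.sum_apply]
      unfold X
      rw [sum_sub_distrib]
      push_cast
      rfl
    · rfl
  have hcard : (B.image (mk T Y)).card ≤ (pks A).card :=
    (card_le_card himg).trans card_image_le
  have hpos : (0 : ℝ) < (B.image (mk T Y)).card := by
    exact_mod_cast card_pos.2 (hB.image _)
  exact Real.log_le_log hpos (by exact_mod_cast hcard)

/-- the entropy conclusion in terms of a generic loss -/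
lemma prods_of_entropy {k : ℕ} (hk : 1 ≤ k) (A : Fin k → Finset ℤ) (hA : ∀ i, (A i).Nonempty)
    (h0 : ∀ i, (0 : ℤ) ∉ A i) (T : Finset ℕ)
    (e : Fin k → ℕ → ℕ) {L γ : ℝ} (hL : 1 < L) (hl : 5 < Real.log L)
    (hγ : γ ≤ 1) (hLγ : k * (4 + k) / Real.log L ≤ γ)
    (hT : ∀ i, ∀ p ∈ T, L * (((A i).filter fun a => fa a p ≠ e i p).card : ℝ) ≤ (A i).card) :
    (1 - γ) * ∑ i, h (A i) (mk T (X (e i))) ≤ Real.log (pks A).card := by
  have hkr : (1 : ℝ) ≤ k := by exact_mod_cast hk
  obtain ⟨p1, p2, p3⟩ := params hL hl (show (0 : ℝ) ≤ k by positivity)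
  have hL0 : 0 < L := by linarith
  have hl0 : 0 < Real.log L := by linarith
  set κ := 2 / Real.log (1 / (1 / Real.sqrt L)) + k * (1 / L) / (1 / Real.sqrt L) with hκ
  have hκk : k * κ ≤ γ := by
    have h1 := mul_le_mul_of_nonneg_left p3 (show (0 : ℝ) ≤ k by positivity)
    rw [← mul_div_assoc] at h1
    exact h1.trans hLγ
  have hκ0 : 0 ≤ κ := by
    have h3 : 0 < Real.log (1 / (1 / Real.sqrt L)) := by
      rw [one_div_one_div, Real.log_sqrt hL0.le]
      linarith
    positivity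
  have hκ1 : κ ≤ 1 := by nlinarith
  have main := prods_entropy hk A hA h0 T e (τ := 1 / L) (θ := 1 / Real.sqrt L)
    (by positivity) p1 p2 hκ1 (fun i p hp => by
      have := hT i p hp
      rw [one_div, ← div_eq_inv_mul, le_div_iff₀ hL0]
      linarith)
  have e1 : (1 - 2 / Real.log (1 / (1 / Real.sqrt L)) - k * (1 / L) / (1 / Real.sqrt L)) =
      1 - κ := by
    rw [hκ]
    ring
  rw [e1] at main
  have hbern : 1 - (k : ℝ) * κ ≤ (1 - κ) ^ (k - 1) := by
    have h1 := one_add_mul_le_pow (show (-2 : ℝ) ≤ -κ by linarith) (k - 1)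
    have h2 : ((k - 1 : ℕ) : ℝ) ≤ k := by exact_mod_cast Nat.sub_le _ _
    have h3 : 1 - (k : ℝ) * κ ≤ 1 + ((k - 1 : ℕ) : ℝ) * (-κ) := by nlinarith
    rw [sub_eq_add_neg 1 κ]
    exact h3.trans h1
  have hH0 : 0 ≤ ∑ i, h (A i) (mk T (X (e i))) := sum_nonneg fun i _ => h_nonneg _ _
  refine le_trans ?_ main
  have h4 : 1 - γ ≤ (1 - κ) ^ (k - 1) := by linarith
  exact mul_le_mul_of_nonneg_right h4 hH0

/-- a class of the elements of `A` with equal valuations at `T` injects into the sign and the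
`P`-part, if `T` contains all the other primes -/
lemma fc_le_part (A : Finset ℤ) (h0 : (0 : ℤ) ∉ A) (P T : Finset ℕ) (hT : pr A \ P ⊆ T)
    {γ : Type} [DecidableEq γ] (g : ℤ → γ) (hg : ∀ a ∈ A, ∀ b ∈ A, g a = g b → ∀ p ∈ P, fa a p = fa b p)
    (e : ℕ → ℕ) (x : ℤ) :
    fc A (mk T (X e)) x ≤ 2 * (A.image g).card := by
  have h1 : (cl A (mk T (X e)) x).card ≤ ((univ : Finset Bool) ×ˢ (A.image g)).card := by
    refine card_le_card_of_injOn (fun y => (decide (0 < y), g y)) ?_ ?_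
    · intro y hy
      rw [mem_coe, mem_cl] at hy
      rw [mem_coe, mem_product]
      exact ⟨mem_univ _, mem_image_of_mem _ hy.1⟩
    · intro y hy z hz hyz
      rw [mem_coe, mem_cl, mk_X_eq_iff] at hy hz
      rw [Prod.mk.injEq] at hyz
      have hs : (0 < y ↔ 0 < z) := by
        have := hyz.1
        rw [decide_eq_decide] at this
        exact this
      refine eq_of_fa (fun h => h0 (h ▸ hy.1)) (fun h => h0 (h ▸ hz.1)) hs ?_
      intro p
      by_cases hp : p ∈ P
      · exact hg y hy.1 z hz.1 hyz.2 p hp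
      · by_cases hp2 : p ∈ pr A
        · have hp3 : p ∈ T := hT (mem_sdiff.2 ⟨hp2, hp⟩)
          exact (hy.2 p hp3).trans (hz.2 p hp3).symm
        · rw [fa_eq_zero hy.1 hp2, fa_eq_zero hz.1 hp2]
  refine h1.trans (le_of_eq ?_)
  rw [card_product, card_univ, Fintype.card_bool]

end Pool.Agent.Q247.KP
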