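import Mathlib
import Pool.Agent.Q247.KP.Ent

/-!
# Product sets of several sets of integers with few popular primes
-/

set_option autoImplicit false

namespace Pool.Agent.Q247.KP

open Finset Pool.Agent.Y359.PE
open scoped Classical

lemma fact_prod' (P : Finset ℕ) (hP : ∀ p ∈ P, p.Prime) (g : ℕ → ℕ) (q : ℕ) (hq : q ∈ P) :
    (∏ p ∈ P, p ^ g p).factorization q = g q := by
  rw [Nat.factorization_prod (fun p hp => pow_ne_zero _ (hP p hp).ne_zero), Finsupp.finsetSum_apply]
  rw [Finset.sum_eq_single q]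
  · rw [(hP q hq).factorization_pow, Finsupp.single_eq_same]
  · intro p hp hpq
    rw [(hP p hp).factorization_pow, Finsupp.single_eq_of_ne (Ne.symm hpq)]
  · intro h
    exact absurd hq h

/-- the `P`-part -/
noncomputable def part (P : Finset ℕ) (a : ℤ) : ℕ := ∏ p ∈ P, p ^ fa a p

lemma fa_eq_of_part {P : Finset ℕ} (hP : ∀ p ∈ P, p.Prime) {a b : ℤ} (h : part P a = part P b)
    {p : ℕ} (hp : p ∈ P) : fa a p = fa b p := by
  have h1 := fact_prod' P hP (fa a) p hp
  have h2 := fact_prod' P hP (fa b) p hp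
  unfold part at h
  rw [← h1, ← h2, h]

/-- **Products of `k` sets, in terms of the popular parts.** -/
theorem parts {k : ℕ} (hk : 1 ≤ k) (L : ℝ) (hL : 1 < L) (A : Fin k → Finset ℤ)
    (hA : ∀ i, (A i).Nonempty) (h0 : ∀ i, (0 : ℤ) ∉ A i) (P : Finset ℕ) (hP : ∀ p ∈ P, p.Prime)
    (hpop : ∀ i, ∀ p : ℕ, p.Prime → p ∉ P →
      ∃ e : ℕ, L * (((A i).filter fun a => fa a p ≠ e).card : ℝ) ≤ (A i).card) :
    (∏ i, ((A i).card : ℝ)) ^ (1 - 5 * (k : ℝ) ^ 2 / Real.log L) ≤
      2 ^ k * (∏ i, (((A i).image (part P)).card : ℝ)) * (pks A).card := by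
  have hkr : (1 : ℝ) ≤ k := by exact_mod_cast hk
  have hk2 : (1 : ℝ) ≤ (k : ℝ) ^ 2 := one_le_pow₀ hkr
  have hl0 : 0 < Real.log L := Real.log_pos hL
  have hN1 : ∀ i, (1 : ℝ) ≤ (A i).card := fun i => by exact_mod_cast card_pos.2 (hA i)
  have hN : (1 : ℝ) ≤ ∏ i, ((A i).card : ℝ) := by
    refine Finset.prod_induction _ (fun x : ℝ => 1 ≤ x) (fun a b ha hb => by nlinarith) le_rfl ?_
    exact fun i _ => hN1 i
  have hP1 : (1 : ℝ) ≤ (pks A).card := by exact_mod_cast card_pos.2 (pks_nonempty hA)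
  have hD1 : ∀ i, (1 : ℝ) ≤ ((A i).image (part P)).card := fun i => by
    exact_mod_cast card_pos.2 ((hA i).image _)
  have hDD : (1 : ℝ) ≤ ∏ i, (((A i).image (part P)).card : ℝ) := by
    refine Finset.prod_induction _ (fun x : ℝ => 1 ≤ x) (fun a b ha hb => by nlinarith) le_rfl ?_
    exact fun i _ => hD1 i
  have h2k : (1 : ℝ) ≤ 2 ^ k := one_le_pow₀ (by norm_num)
  rcases le_or_gt (1 : ℝ) (5 * (k : ℝ) ^ 2 / Real.log L) with hc | hc
  · have h1 : (∏ i, ((A i).card : ℝ)) ^ (1 - 5 * (k : ℝ) ^ 2 / Real.log L) ≤ 1 :=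
      Real.rpow_le_one_of_one_le_of_nonpos hN (by linarith)
    refine h1.trans ?_
    have h2 : 1 ≤ 2 ^ k * (∏ i, (((A i).image (part P)).card : ℝ)) := by nlinarith
    nlinarith
  · rw [div_lt_iff₀ hl0, one_mul] at hc
    have hc5 : 5 < Real.log L := by linarith
    choose! e he using hpop
    set U := (Finset.univ.biUnion fun i => pr (A i)) with hU
    set T := U \ P with hT
    have hTp : ∀ p ∈ T, p.Prime ∧ p ∉ P := by
      intro p hp
      rw [hT, mem_sdiff, hU, mem_biUnion] at hp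
      obtain ⟨⟨i, -, hi⟩, hpP⟩ := hp
      exact ⟨prime_of_mem_pr hi, hpP⟩
    have main := prods_of_entropy hk A hA h0 T e hL hc5 (γ := 5 * (k : ℝ) ^ 2 / Real.log L)
      (by rw [div_le_one hl0]; exact hc.le)
      (by
        rw [div_le_div_iff_of_pos_right hl0]
        nlinarith)
      (fun i p hp => he i p (hTp p hp).1 (hTp p hp).2)
    have hh : ∀ i, Real.log (A i).card - Real.log (2 * ((A i).image (part P)).card) ≤
        h (A i) (mk T (X (e i))) := by
      intro i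
      have h3 := h_ge_short (A i) (A i) (hA i) (mk T (X (e i))) (Subset.refl _)
        (F := 2 * ((A i).image (part P)).card) (fun x _ => by
          have h4 := fc_le_part (A i) (h0 i) P T (by
            intro p hp
            rw [mem_sdiff] at hp
            exact mem_sdiff.2 ⟨mem_biUnion.2 ⟨i, mem_univ _, hp.1⟩, hp.2⟩) (part P)
            (fun a _ b _ hab p hp => fa_eq_of_part hP hab hp) (e i) x
          exact_mod_cast h4)
      have hNi := hN1 i
      rwa [div_self (by linarith), one_mul] at h3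
    set E := 1 - 5 * (k : ℝ) ^ 2 / Real.log L with hEd
    have hE0 : 0 ≤ E := by
      have : 5 * (k : ℝ) ^ 2 / Real.log L ≤ 1 := by
        rw [div_le_one hl0]
        exact hc.le
      linarith
    have hE1 : E ≤ 1 := by
      have : 0 ≤ 5 * (k : ℝ) ^ 2 / Real.log L := by positivity
      linarith
    have hsum := sum_le_sum fun i (_ : i ∈ (univ : Finset (Fin k))) => hh i
    rw [sum_sub_distrib] at hsum
    have hlog1 : Real.log (∏ i, ((A i).card : ℝ)) = ∑ i, Real.log ((A i).card : ℝ) :=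
      Real.log_prod fun i _ => by have := hN1 i; linarith
    have hlog2 : Real.log (2 ^ k * ∏ i, (((A i).image (part P)).card : ℝ)) =
        ∑ i, Real.log (2 * (((A i).image (part P)).card : ℝ)) := by
      rw [← Real.log_prod fun i _ => by have := hD1 i; linarith]
      rw [prod_mul_distrib, prod_const, card_univ, Fintype.card_fin]
    have hN0 : (0 : ℝ) < ∏ i, ((A i).card : ℝ) := by linarith
    have hR1 : (0 : ℝ) < 2 ^ k * ∏ i, (((A i).image (part P)).card : ℝ) := by
      have : (1 : ℝ) ≤ 2 ^ k * ∏ i, (((A i).image (part P)).card : ℝ) :=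
        one_le_mul_of_one_le_of_one_le h2k hDD
      linarith
    have hR2 : (0 : ℝ) < (pks A).card := by linarith
    rw [← Real.log_le_log_iff (Real.rpow_pos_of_pos hN0 _) (mul_pos hR1 hR2), Real.log_rpow hN0,
      Real.log_mul hR1.ne' hR2.ne', hlog1, hlog2]
    have s1 := mul_le_mul_of_nonneg_left hsum hE0
    have s2 : E * ∑ i, Real.log (2 * (((A i).image (part P)).card : ℝ)) ≤
        ∑ i, Real.log (2 * (((A i).image (part P)).card : ℝ)) := by
      refine mul_le_of_le_one_left (sum_nonneg fun i _ => Real.log_nonneg ?_) hE1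
      have := hD1 i
      linarith
    have s3 : E * (∑ i, Real.log ((A i).card : ℝ) -
        ∑ i, Real.log (2 * (((A i).image (part P)).card : ℝ))) ≤ Real.log (pks A).card :=
      s1.trans main
    rw [mul_sub] at s3
    linarith

/-- **Criterion.** If every large prime divides few elements and high powers of the small primes
divide few elements, the product set of the `k` sets is almost as large as possible. -/
theorem crit {k : ℕ} (hk : 1 ≤ k) (ε : ℝ) (hε : 0 < ε) (hε1 : ε ≤ 1) :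
    ∃ Λ : ℝ, 1 ≤ Λ ∧ ∀ m J : ℕ, ∃ c : ℝ, 0 < c ∧ ∀ A : Fin k → Finset ℤ,
      (∀ i, (A i).Nonempty) →
      (∀ i, ∀ p : ℕ, p.Prime → m < p →
        Λ * (((A i).filter fun a : ℤ => (p : ℤ) ∣ a).card : ℝ) ≤ (A i).card) →
      (∀ i, ∀ p : ℕ, p.Prime → p ≤ m →
        4 * (m : ℝ) * (((A i).filter fun a : ℤ => ((p ^ J : ℕ) : ℤ) ∣ a).card : ℝ) ≤ (A i).card) →
      c * (∏ i, ((A i).card : ℝ)) ^ (1 - ε) ≤ (pks A).card := by
  have hkr : (1 : ℝ) ≤ k := by exact_mod_cast hk
  -- the parameter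
  set Λ₀ : ℝ := Real.exp (6 + 5 * (k : ℝ) ^ 2 / ε) with hΛ₀
  have hlog : Real.log Λ₀ = 6 + 5 * (k : ℝ) ^ 2 / ε := Real.log_exp _
  have hfrac : 0 ≤ 5 * (k : ℝ) ^ 2 / ε := by positivity
  have hΛ1 : 1 < Λ₀ := Real.one_lt_exp_iff.2 (by linarith)
  refine ⟨2 * Λ₀, by linarith, fun m J => ?_⟩
  set P : Finset ℕ := (range (m + 1)).filter Nat.Prime with hP
  set D : ℝ := 4 * ((J : ℝ) + 1) ^ P.card with hD
  have hD1 : 1 ≤ D := by
    have : (1 : ℝ) ≤ ((J : ℝ) + 1) ^ P.card := one_le_pow₀ (by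
      have : (0 : ℝ) ≤ J := by positivity
      linarith)
    rw [hD]
    linarith
  refine ⟨1 / D ^ k, by positivity, fun A hA hbig hsmall => ?_⟩
  have hPc : (P.card : ℝ) ≤ m := by
    have h10 : P ⊆ (range (m + 1)).erase 0 := by
      intro p hp
      rw [mem_erase]
      exact ⟨(mem_filter.1 hp).2.ne_zero, (mem_filter.1 hp).1⟩
    have h11 := card_le_card h10
    rw [card_erase_of_mem (mem_range.2 (by omega)), card_range] at h11
    exact_mod_cast h11
  have hPp : ∀ p ∈ P, p.Prime := fun p hp => (mem_filter.1 hp).2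
  have hPm : ∀ p ∈ P, p ≤ m := fun p hp => by
    have := mem_range.1 (mem_filter.1 hp).1
    omega
  -- the removed elements
  set R : Fin k → Finset ℤ := fun i => (P.biUnion fun p =>
    (A i).filter fun a : ℤ => ((p ^ J : ℕ) : ℤ) ∣ a) ∪ (A i).filter fun a : ℤ => a = 0 with hR
  have hN1 : ∀ i, (1 : ℝ) ≤ (A i).card := fun i => by exact_mod_cast card_pos.2 (hA i)
  have hz : ∀ i, (((A i).filter fun a : ℤ => a = 0).card : ℝ) ≤ (A i).card / 4 := by
    intro i
    obtain ⟨p, hp, hpp⟩ := Nat.exists_infinite_primes (m + 1)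
    have h1 := hbig i p hpp (by omega)
    have h2 : (((A i).filter fun a : ℤ => a = 0).card : ℝ) ≤
        (((A i).filter fun a : ℤ => (p : ℤ) ∣ a).card : ℝ) := by
      have : ((A i).filter fun a : ℤ => a = 0) ⊆ (A i).filter fun a : ℤ => (p : ℤ) ∣ a := by
        intro a ha
        rw [mem_filter] at ha ⊢
        exact ⟨ha.1, ha.2 ▸ dvd_zero _⟩
      exact_mod_cast card_le_card this
    have h3 : (4 : ℝ) ≤ 2 * Λ₀ := by
      have := Real.add_one_le_exp (6 + 5 * (k : ℝ) ^ 2 / ε)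
      rw [← hΛ₀] at this
      linarith
    have h4 : (0 : ℝ) ≤ (((A i).filter fun a : ℤ => (p : ℤ) ∣ a).card : ℝ) := by positivity
    nlinarith
  have hRc : ∀ i, ((R i).card : ℝ) ≤ (A i).card / 2 := by
    intro i
    have h1 : ((R i).card : ℝ) ≤ (∑ p ∈ P, (((A i).filter
        fun a : ℤ => ((p ^ J : ℕ) : ℤ) ∣ a).card : ℝ)) +
        (((A i).filter fun a : ℤ => a = 0).card : ℝ) := by
      have h2 : (R i).card ≤ (∑ p ∈ P, ((A i).filter
        fun a : ℤ => ((p ^ J : ℕ) : ℤ) ∣ a).card) +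
        ((A i).filter fun a : ℤ => a = 0).card := by
        refine (card_union_le _ _).trans ?_
        have := card_biUnion_le (s := P) (t := fun p =>
          (A i).filter fun a : ℤ => ((p ^ J : ℕ) : ℤ) ∣ a)
        omega
      exact_mod_cast h2
    have h5 : (∑ p ∈ P, (((A i).filter
        fun a : ℤ => ((p ^ J : ℕ) : ℤ) ∣ a).card : ℝ)) ≤ (A i).card / 4 := by
      rcases Nat.eq_zero_or_pos m with hm | hm
      · have : P = ∅ := by
          rw [← card_eq_zero]
          have : (P.card : ℝ) ≤ 0 := by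
            rw [hm] at hPc
            simpa using hPc
          exact_mod_cast le_antisymm this (by positivity)
        rw [this, sum_empty]
        positivity
      have hm0 : (0 : ℝ) < m := by exact_mod_cast hm
      have h6 : ∀ p ∈ P, (((A i).filter fun a : ℤ => ((p ^ J : ℕ) : ℤ) ∣ a).card : ℝ) ≤
          (A i).card / (4 * m) := by
        intro p hp
        have := hsmall i p (hPp p hp) (hPm p hp)
        rw [le_div_iff₀ (by positivity)]
        linarith
      refine (sum_le_sum h6).trans ?_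
      rw [sum_const, nsmul_eq_mul]
      have h7 : (P.card : ℝ) * ((A i).card / (4 * m)) ≤ m * ((A i).card / (4 * m)) :=
        mul_le_mul_of_nonneg_right hPc (by positivity)
      refine h7.trans (le_of_eq ?_)
      field_simp
    have := hz i
    linarith
  set A₁ : Fin k → Finset ℤ := fun i => A i \ R i with hA₁
  have hA₁A : ∀ i, A₁ i ⊆ A i := fun i => sdiff_subset
  have hcard : ∀ i, ((A i).card : ℝ) / 2 ≤ (A₁ i).card := by
    intro i
    have h1 : (A i).card - (R i).card ≤ (A₁ i).card := le_card_sdiff _ _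
    have h2 : ((A i).card : ℝ) ≤ (A₁ i).card + (R i).card := by
      have : (A i).card ≤ (A₁ i).card + (R i).card := by omega
      exact_mod_cast this
    have := hRc i
    linarith
  have hA₁0 : ∀ i, (0 : ℝ) < (A₁ i).card := fun i => by
    have := hcard i
    have := hN1 i
    linarith
  have hA₁n : ∀ i, (A₁ i).Nonempty := fun i => card_pos.1 (by exact_mod_cast hA₁0 i)
  have hnotR : ∀ i, ∀ a ∈ A₁ i, a ≠ 0 ∧ ∀ p ∈ P, ¬ ((p ^ J : ℕ) : ℤ) ∣ a := by
    intro i a ha
    rw [hA₁, mem_sdiff] at ha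
    refine ⟨fun h => ha.2 (mem_union_right _ (mem_filter.2 ⟨ha.1, h⟩)), fun p hp hd => ?_⟩
    exact ha.2 (mem_union_left _ (mem_biUnion.2 ⟨p, hp, mem_filter.2 ⟨ha.1, hd⟩⟩))
  have h0 : ∀ i, (0 : ℤ) ∉ A₁ i := fun i h => (hnotR i 0 h).1 rfl
  have hJlt : ∀ i, ∀ a ∈ A₁ i, ∀ p ∈ P, fa a p < J + 1 := by
    intro i a ha p hp
    by_contra hc
    have ha0 : a ≠ 0 := (hnotR i a ha).1
    exact (hnotR i a ha).2 p hp ((le_fa_iff ha0 (hPp p hp) J).1 (by omega))
  -- the unpopular primes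
  have hunp : ∀ i, ∀ p : ℕ, p.Prime → p ∉ P → ∃ e : ℕ,
      Λ₀ * (((A₁ i).filter fun a => fa a p ≠ e).card : ℝ) ≤ (A₁ i).card := by
    intro i p hpp hpP
    have hpm : m < p := by
      by_contra hc
      exact hpP (mem_filter.2 ⟨mem_range.2 (by omega), hpp⟩)
    refine ⟨0, ?_⟩
    have h1 := hbig i p hpp hpm
    have h2 : (((A₁ i).filter fun a => fa a p ≠ (0 : ℕ)).card : ℝ) ≤
        (((A i).filter fun a : ℤ => (p : ℤ) ∣ a).card : ℝ) := by
      have : ((A₁ i).filter fun a => fa a p ≠ (0 : ℕ)) ⊆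
          (A i).filter fun a : ℤ => (p : ℤ) ∣ a := by
        intro a ha
        rw [mem_filter] at ha ⊢
        refine ⟨hA₁A i ha.1, ?_⟩
        have := (le_fa_iff (hnotR i a ha.1).1 hpp 1).1 (Nat.one_le_iff_ne_zero.2 ha.2)
        simpa using this
      exact_mod_cast card_le_card this
    have h3 := mul_le_mul_of_nonneg_left h2 (show (0 : ℝ) ≤ Λ₀ by positivity)
    have := hcard i
    nlinarith
  have main := parts hk Λ₀ hΛ1 A₁ hA₁n h0 P hPp hunp
  -- the number of the parts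
  have hpart : ∀ i, (((A₁ i).image (part P)).card : ℝ) ≤ ((J : ℝ) + 1) ^ P.card := by
    intro i
    have h1 : (A₁ i).image (part P) ⊆ ((P.pi fun _ => range (J + 1)).image
        fun g => ∏ p ∈ P.attach, (p : ℕ) ^ g p p.2) := by
      intro v hv
      obtain ⟨a, ha, rfl⟩ := mem_image.1 hv
      refine mem_image.2 ⟨fun p _ => fa a p, ?_, ?_⟩
      · rw [Finset.mem_pi]
        intro p hp
        exact mem_range.2 (hJlt i a ha p hp)
      · unfold part
        rw [← Finset.prod_attach P]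
    have h2 := (card_le_card h1).trans card_image_le
    rw [card_pi, prod_const, card_range] at h2
    exact_mod_cast h2
  -- conclusion
  have hle : ∏ i, ((A i).card : ℝ) / 2 ≤ ∏ i, ((A₁ i).card : ℝ) :=
    prod_le_prod (fun i _ => div_nonneg (Nat.cast_nonneg _) (by norm_num)) fun i _ => hcard i
  have hNpos : (0 : ℝ) < ∏ i, ((A i).card : ℝ) := prod_pos fun i _ => by
    have := hN1 i
    linarith
  have hNpos' : (1 : ℝ) ≤ ∏ i, ((A₁ i).card : ℝ) := by
    refine Finset.prod_induction _ (fun x : ℝ => 1 ≤ x) (fun a b ha hb => by nlinarith) le_rfl ?_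
    intro i _
    exact_mod_cast card_pos.2 (hA₁n i)
  have hexp : 5 * (k : ℝ) ^ 2 / Real.log Λ₀ ≤ ε := by
    rw [hlog, div_le_iff₀ (by positivity)]
    have h1 : ε * (6 + 5 * (k : ℝ) ^ 2 / ε) = 6 * ε + 5 * (k : ℝ) ^ 2 := by
      field_simp
    rw [h1]
    linarith
  have hsub : ((pks A₁).card : ℝ) ≤ (pks A).card := by
    exact_mod_cast card_le_card (pks_mono hA₁A)
  have g1 : (∏ i, ((A₁ i).card : ℝ)) ^ (1 - ε) ≤
      (∏ i, ((A₁ i).card : ℝ)) ^ (1 - 5 * (k : ℝ) ^ 2 / Real.log Λ₀) :=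
    Real.rpow_le_rpow_of_exponent_le hNpos' (by linarith)
  have g2 : (∏ i, ((A i).card : ℝ) / 2) ^ (1 - ε) ≤ (∏ i, ((A₁ i).card : ℝ)) ^ (1 - ε) :=
    Real.rpow_le_rpow (prod_nonneg fun i _ => div_nonneg (Nat.cast_nonneg _) (by norm_num)) hle
      (by linarith)
  have g3 : (∏ i, ((A i).card : ℝ) / 2) = (∏ i, ((A i).card : ℝ)) / 2 ^ k := by
    rw [prod_div_distrib, prod_const, card_univ, Fintype.card_fin]
  have g4 : (∏ i, ((A i).card : ℝ)) ^ (1 - ε) / 2 ^ k ≤ (∏ i, ((A i).card : ℝ) / 2) ^ (1 - ε) := by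
    have hq : (0 : ℝ) < 2 ^ k := pow_pos (by norm_num) k
    rw [g3, Real.div_rpow hNpos.le hq.le]
    refine div_le_div_of_nonneg_left (Real.rpow_nonneg hNpos.le _) (Real.rpow_pos_of_pos hq _) ?_
    have : ((2 : ℝ) ^ k) ^ (1 - ε) ≤ ((2 : ℝ) ^ k) ^ (1 : ℝ) :=
      Real.rpow_le_rpow_of_exponent_le (one_le_pow₀ (by norm_num)) (by linarith)
    rwa [Real.rpow_one] at this
  have g5 : ∏ i, (((A₁ i).image (part P)).card : ℝ) ≤ (((J : ℝ) + 1) ^ P.card) ^ k := by
    refine (prod_le_prod (fun i _ => Nat.cast_nonneg _) fun i _ => hpart i).trans (le_of_eq ?_)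
    rw [prod_const, card_univ, Fintype.card_fin]
  have h2k : (0 : ℝ) < 2 ^ k := pow_pos (by norm_num) k
  have hDk : (0 : ℝ) < D ^ k := pow_pos (by linarith) k
  have g6 : (∏ i, ((A i).card : ℝ)) ^ (1 - ε) / 2 ^ k ≤
      2 ^ k * (((J : ℝ) + 1) ^ P.card) ^ k * (pks A).card := by
    refine (g4.trans (g2.trans (g1.trans main))).trans ?_
    exact mul_le_mul (mul_le_mul_of_nonneg_left g5 h2k.le) hsub (Nat.cast_nonneg _)
      (mul_nonneg h2k.le (pow_nonneg (pow_nonneg (by
        have : (0 : ℝ) ≤ (J : ℝ) := Nat.cast_nonneg _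
        linarith) _) _))
  rw [one_div, ← div_eq_inv_mul, div_le_iff₀ hDk]
  rw [div_le_iff₀ h2k] at g6
  have g7 : D ^ k = 2 ^ k * (((J : ℝ) + 1) ^ P.card) ^ k * 2 ^ k := by
    rw [hD, mul_pow]
    have : (4 : ℝ) ^ k = 2 ^ k * 2 ^ k := by
      rw [← mul_pow]
      norm_num
    rw [this]
    ring
  rw [g7]
  calc (∏ i, ((A i).card : ℝ)) ^ (1 - ε) ≤
        2 ^ k * (((J : ℝ) + 1) ^ P.card) ^ k * (pks A).card * 2 ^ k := g6
    _ = (pks A).card * (2 ^ k * (((J : ℝ) + 1) ^ P.card) ^ k * 2 ^ k) := by ring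

end Pool.Agent.Q247.KP
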