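import Mathlib
import Pool.Agent.Q247.KP.Crit
import Pool.Agent.Y359.PE.Runs

/-!
# Values of primitive polynomials divisible by high prime powers
-/

set_option autoImplicit false

namespace Pool.Agent.Q247.KP

open Finset Polynomial
open scoped Classical

/-- dividing by a factor with a small valuation -/
lemma pow_dvd_of_not {p : ℤ} (hp : Prime p) {u v : ℤ} {w N : ℕ} (hu : ¬ p ^ (w + 1) ∣ u)
    (h : p ^ (N + w) ∣ u * v) : p ^ N ∣ v := by
  have hfin : FiniteMultiplicity p u := by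
    refine ⟨w, hu⟩
  obtain ⟨c, hc, hpc⟩ := hfin.exists_eq_pow_mul_and_not_dvd
  set j := multiplicity p u with hj
  have hjw : j ≤ w := by
    by_contra hcon
    exact hu ((pow_dvd_pow p (by omega)).trans ⟨c, hc⟩)
  have h1 : p ^ j * p ^ (N + w - j) ∣ p ^ j * (c * v) := by
    rw [← pow_add, ← mul_assoc, ← hc]
    rwa [show j + (N + w - j) = N + w by omega]
  have h2 : p ^ (N + w - j) ∣ c * v :=
    (mul_dvd_mul_iff_left (pow_ne_zero _ hp.ne_zero)).1 h1
  exact (pow_dvd_pow p (by omega)).trans (hp.pow_dvd_of_dvd_mul_left _ hpc h2)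

/-- a polynomial of degree at most `D` which takes values divisible by a high power of `p` at
`D + 1` points that are distinct modulo `p ^ (w + 1)` has all its coefficients divisible by `p` -/
lemma dvd_of_points {p : ℤ} (hp : Prime p) (w : ℕ) : ∀ (D : ℕ) (f : ℤ[X]) (S : Finset ℤ),
    f.natDegree ≤ D → D + 1 ≤ S.card →
    (∀ a ∈ S, ∀ b ∈ S, a ≠ b → ¬ p ^ (w + 1) ∣ a - b) →
    (∀ a ∈ S, p ^ (D * w + 1) ∣ f.eval a) → C p ∣ f := by
  intro D
  induction D with
  | zero =>
    intro f S hf hS _ hv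
    obtain ⟨a, ha⟩ := card_pos.1 (by omega : 0 < S.card)
    have h1 := hv a ha
    rw [eq_C_of_natDegree_le_zero hf] at h1 ⊢
    rw [eval_C] at h1
    rw [zero_mul, zero_add, pow_one] at h1
    exact (map_dvd C h1)
  | succ D ih =>
    intro f S hf hS hsep hv
    obtain ⟨b, hb⟩ := card_pos.1 (by omega : 0 < S.card)
    -- the quotient
    set g := f /ₘ (X - C b) with hg
    have hfg : (X - C b) * g = f - C (f.eval b) := by
      rw [hg, X_sub_C_mul_divByMonic_eq_sub_modByMonic, modByMonic_X_sub_C_eq_C_eval]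
    have hgd : g.natDegree ≤ D := by
      rw [hg, natDegree_divByMonic _ (monic_X_sub_C b), natDegree_X_sub_C]
      omega
    have h1 : C p ∣ g := by
      refine ih g (S.erase b) hgd ?_ ?_ ?_
      · rw [card_erase_of_mem hb]
        omega
      · intro a ha c hc hac
        exact hsep a (mem_of_mem_erase ha) c (mem_of_mem_erase hc) hac
      · intro a ha
        have hab : a ≠ b := ne_of_mem_erase ha
        have h2 : (a - b) * g.eval a = f.eval a - f.eval b := by
          have := congrArg (eval a) hfg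
          simpa using this
        refine pow_dvd_of_not hp (hsep a (mem_of_mem_erase ha) b hb hab) (v := g.eval a) ?_
        rw [h2, show D * w + 1 + w = (D + 1) * w + 1 by ring]
        exact dvd_sub (hv a (mem_of_mem_erase ha)) (hv b hb)
    have h3 : C p ∣ C (f.eval b) := by
      refine map_dvd C ?_
      exact (dvd_pow_self p (by omega)).trans (hv b hb)
    have h4 : f = (X - C b) * g + C (f.eval b) := by
      rw [hfg]
      ring
    rw [h4]
    exact dvd_add (dvd_mul_of_dvd_right h1 _) h3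

/-- the points where a primitive polynomial is divisible by `p ^ (D w + 1)` lie in at most `D`
classes modulo `p ^ (w + 1)` -/
lemma classes {p : ℕ} (hp : p.Prime) (w D : ℕ) (f : ℤ[X]) (hf : f.IsPrimitive)
    (hD : f.natDegree ≤ D) (Q : Finset ℤ)
    (hQ : ∀ x ∈ Q, ((p ^ (D * w + 1) : ℕ) : ℤ) ∣ f.eval x) :
    (Q.image fun x : ℤ => x % ((p ^ (w + 1) : ℕ) : ℤ)).card ≤ D := by
  by_contra hcon
  push Not at hcon
  -- representatives
  set I := Q.image fun x : ℤ => x % ((p ^ (w + 1) : ℕ) : ℤ) with hI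
  have hrep : ∀ r ∈ I, ∃ x ∈ Q, x % ((p ^ (w + 1) : ℕ) : ℤ) = r := fun r hr => mem_image.1 hr
  choose! x hxQ hxr using hrep
  have hinj : Set.InjOn x I := by
    intro r hr s hs hrs
    rw [← hxr r hr, ← hxr s hs, hrs]
  have hcard : (I.image x).card = I.card := card_image_of_injOn hinj
  have hpz : Prime (p : ℤ) := Nat.prime_iff_prime_int.1 hp
  have h1 := dvd_of_points hpz w D f (I.image x) hD (by omega) (by
    intro a ha b hb hab hdvd
    obtain ⟨r, hr, rfl⟩ := mem_image.1 ha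
    obtain ⟨s, hs, rfl⟩ := mem_image.1 hb
    apply hab
    have h2' : x s ≡ x r [ZMOD ((p ^ (w + 1) : ℕ) : ℤ)] := by
      rw [Int.modEq_iff_dvd]
      push_cast
      exact hdvd
    have h2 : x r % ((p ^ (w + 1) : ℕ) : ℤ) = x s % ((p ^ (w + 1) : ℕ) : ℤ) := h2'.symm
    rw [hxr r hr, hxr s hs] at h2
    rw [h2]) (by
    intro a ha
    obtain ⟨r, hr, rfl⟩ := mem_image.1 ha
    have := hQ _ (hxQ r hr)
    push_cast at this
    exact this)
  have h3 := hf (p : ℤ) h1
  exact hpz.not_isUnit h3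

/-- the number of such points in a short interval -/
lemma card_poly {p : ℕ} (hp : p.Prime) (w D : ℕ) (f : ℤ[X]) (hf : f.IsPrimitive)
    (hD : f.natDegree ≤ D) (y : ℤ) (m : ℕ) (Q : Finset ℤ)
    (hQ : ∀ x ∈ Q, ((p ^ (D * w + 1) : ℕ) : ℤ) ∣ f.eval x ∧ y - m < x ∧ x < y + m) :
    (Q.card : ℝ) ≤ D * (2 * m / (p ^ (w + 1) : ℕ) + 1) := by
  set q : ℕ := p ^ (w + 1) with hq
  have hq0 : 0 < q := pow_pos hp.pos _
  have h1 := classes hp w D f hf hD Q (fun x hx => (hQ x hx).1)
  rw [← hq] at h1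
  have h2 : Q.card = ∑ r ∈ Q.image (fun x : ℤ => x % (q : ℤ)),
      (Q.filter fun x : ℤ => x % (q : ℤ) = r).card :=
    card_eq_sum_card_image _ _
  have h3 : ∀ r ∈ Q.image (fun x : ℤ => x % (q : ℤ)),
      ((Q.filter fun x : ℤ => x % (q : ℤ) = r).card : ℝ) ≤ 2 * m / q + 1 := by
    intro r _
    -- shift by `r`
    have h4 := Pool.Agent.Y359.PE.card_mult_Ioo q hq0
      ((Q.filter fun x : ℤ => x % (q : ℤ) = r).image fun x => x - r) (y - r) m (by
      intro z hz
      obtain ⟨x, hx, rfl⟩ := mem_image.1 hz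
      rw [mem_filter] at hx
      have h5 := (hQ x hx.1).2
      refine ⟨?_, by linarith [h5.1], by linarith [h5.2]⟩
      rw [← hx.2]
      exact Int.dvd_self_sub_emod)
    rwa [card_image_of_injective _ (fun a b hab => by simpa using hab)] at h4
  have h6 : (Q.card : ℝ) ≤ ∑ r ∈ Q.image (fun x : ℤ => x % (q : ℤ)), (2 * (m : ℝ) / q + 1) := by
    rw [h2]
    push_cast
    exact sum_le_sum h3
  refine h6.trans ?_
  rw [sum_const, nsmul_eq_mul]
  refine mul_le_mul_of_nonneg_right (by exact_mod_cast h1) (by positivity)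

/-- the proportion of such points in a set all of whose elements lie in long runs -/
lemma poly_runs {p : ℕ} (hp : p.Prime) (w D : ℕ) (f : ℤ[X]) (hf : f.IsPrimitive)
    (hD : f.natDegree ≤ D) (A : Finset ℤ) (m : ℕ) (hm : 0 < m)
    (hrun : ∀ a ∈ A, ∃ b : ℤ, b ≤ a ∧ a < b + m ∧ Ico b (b + m) ⊆ A) :
    ((A.filter fun a : ℤ => ((p ^ (D * w + 1) : ℕ) : ℤ) ∣ f.eval a).card : ℝ) ≤
      D * (2 / (p ^ (w + 1) : ℕ) + 1 / m) * A.card := by
  choose! b hb1 hb2 hb3 using hrun
  have hmr : (0 : ℝ) < m := by exact_mod_cast hm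
  set q : ℕ := p ^ (w + 1) with hq
  have hq0 : 0 < q := pow_pos hp.pos _
  have hqr : (0 : ℝ) < q := by exact_mod_cast hq0
  set Q := A.filter fun a : ℤ => ((p ^ (D * w + 1) : ℕ) : ℤ) ∣ f.eval a with hQ
  have h1 : ∑ x ∈ Q, ((Ico (b x) (b x + m)).card : ℝ) = m * Q.card := by
    have : ∀ x ∈ Q, ((Ico (b x) (b x + m)).card : ℝ) = m := by
      intro x _
      rw [Int.card_Ico]
      simp
    rw [sum_congr rfl this, sum_const, nsmul_eq_mul]
    ring
  have h2 : ∀ x ∈ Q, ((Ico (b x) (b x + m)).card : ℝ) =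
      ∑ y ∈ A, if y ∈ Ico (b x) (b x + m) then (1 : ℝ) else 0 := by
    intro x hx
    rw [← sum_filter, sum_const, nsmul_eq_mul, mul_one]
    congr 2
    ext y
    rw [mem_filter]
    exact ⟨fun h => ⟨hb3 x (mem_filter.1 hx).1 h, h⟩, fun h => h.2⟩
  have h3 : ∀ y ∈ A, (∑ x ∈ Q, if y ∈ Ico (b x) (b x + m) then (1 : ℝ) else 0) ≤
      D * (2 * m / q + 1) := by
    intro y _
    rw [← sum_filter, sum_const, nsmul_eq_mul, mul_one]
    refine card_poly hp w D f hf hD y m _ ?_
    intro x hx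
    rw [mem_filter, mem_Ico] at hx
    have hxA := (mem_filter.1 hx.1)
    have c1 := hb1 x hxA.1
    have c2 := hb2 x hxA.1
    exact ⟨hxA.2, by linarith [hx.2.1, hx.2.2], by linarith [hx.2.1, hx.2.2]⟩
  have h4 : (m : ℝ) * Q.card ≤ A.card * (D * (2 * m / q + 1)) := by
    rw [← h1, sum_congr rfl h2, sum_comm]
    refine (sum_le_sum h3).trans ?_
    rw [sum_const, nsmul_eq_mul]
  have h5 : (D : ℝ) * (2 / q + 1 / m) * (A.card : ℝ) = A.card * (D * (2 * m / q + 1)) / m := by
    field_simp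
  rw [h5, le_div_iff₀ hmr]
  linarith

end Pool.Agent.Q247.KP
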