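import Mathlib
import Pool.Agent.Q247.KP.Poly

/-!
# Unions of long runs of values of primitive polynomials, and shifts
-/

set_option autoImplicit false

namespace Pool.Agent.Q247.KP

open Finset Polynomial
open scoped Classical

/-- the criterion with the quantities that occur for values of polynomials -/
theorem crit2 {k : ℕ} (hk : 1 ≤ k) (d : ℕ) (K ε : ℝ) (hK : 1 ≤ K) (hε : 0 < ε) (hε1 : ε ≤ 1) :
    ∃ (L : ℕ) (c : ℝ), 1 ≤ L ∧ 0 < c ∧ ∀ A : Fin k → Finset ℤ, (∀ i, (A i).Nonempty) →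
      (∀ i, ∀ p : ℕ, p.Prime → ∀ w : ℕ,
        (((A i).filter fun a : ℤ => ((p ^ (d * w + 1) : ℕ) : ℤ) ∣ a).card : ℝ) ≤
          K * (2 / (p ^ (w + 1) : ℕ) + 1 / L) * (A i).card) →
      c * (∏ i, ((A i).card : ℝ)) ^ (1 - ε) ≤ (pks A).card := by
  obtain ⟨Λ, hΛ, hcr⟩ := crit hk ε hε hε1
  set m : ℕ := ⌈4 * K * Λ⌉₊ with hm
  have hm1 : 4 * K * Λ ≤ m := Nat.le_ceil _
  have hKΛ : 1 ≤ K * Λ := by nlinarith
  have hm0 : (0 : ℝ) < m := by nlinarith
  set w : ℕ := ⌈16 * m * K⌉₊ with hw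
  have hw1 : 16 * m * K ≤ w := Nat.le_ceil _
  set L : ℕ := ⌈8 * m * K⌉₊ with hL
  have hL1 : 8 * m * K ≤ L := Nat.le_ceil _
  have hm4 : (4 : ℝ) ≤ m := by nlinarith
  have hmK : (4 : ℝ) ≤ m * K := by nlinarith
  have hL0 : (0 : ℝ) < L := by nlinarith
  obtain ⟨c, hc, h⟩ := hcr m (d * w + 1)
  refine ⟨L, c, by
    have : (0 : ℝ) < L := hL0
    exact_mod_cast this, hc, fun A hA hq => h A hA ?_ ?_⟩
  · intro i p hp hmp
    have h1 := hq i p hp 0
    rw [mul_zero, zero_add, pow_one] at h1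
    have hp0 : (0 : ℝ) < p := by exact_mod_cast hp.pos
    have hpm : (m : ℝ) ≤ p := by exact_mod_cast hmp.le
    have h2 : 2 / (p : ℝ) ≤ 2 / m := div_le_div_of_nonneg_left (by norm_num) hm0 hpm
    have h3 : 1 / (L : ℝ) ≤ 1 / m := by
      refine div_le_div_of_nonneg_left (by norm_num) hm0 ?_
      nlinarith
    have h4 : K * (2 / (p : ℝ) + 1 / L) ≤ K * (3 / m) := by
      refine mul_le_mul_of_nonneg_left ?_ (by linarith)
      have : (3 : ℝ) / m = 2 / m + 1 / m := by ring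
      linarith
    have h5 : Λ * (K * (3 / m)) ≤ 1 := by
      have : Λ * (K * (3 / (m : ℝ))) = 3 * (K * Λ) / m := by ring
      rw [this, div_le_one hm0]
      nlinarith
    have h6 : (0 : ℝ) ≤ ((A i).card : ℝ) := Nat.cast_nonneg _
    calc Λ * (((A i).filter fun a : ℤ => (p : ℤ) ∣ a).card : ℝ) ≤
          Λ * (K * (2 / (p : ℝ) + 1 / L) * (A i).card) :=
          mul_le_mul_of_nonneg_left h1 (by linarith)
      _ = (Λ * (K * (2 / (p : ℝ) + 1 / L))) * (A i).card := by ring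
      _ ≤ 1 * (A i).card := by
          refine mul_le_mul_of_nonneg_right ?_ h6
          exact (mul_le_mul_of_nonneg_left h4 (by linarith)).trans h5
      _ = (A i).card := one_mul _
  · intro i p hp _
    have h1 := hq i p hp w
    have hw2 : (w : ℝ) ≤ ((p ^ (w + 1) : ℕ) : ℝ) := by
      have h7 : w < p ^ w := Nat.lt_pow_self hp.one_lt
      have h8 : p ^ w ≤ p ^ (w + 1) := Nat.pow_le_pow_right hp.pos (by omega)
      exact_mod_cast (by omega : w ≤ p ^ (w + 1))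
    have hw0 : (0 : ℝ) < 16 * m * K := by nlinarith
    have h2 : 2 / ((p ^ (w + 1) : ℕ) : ℝ) ≤ 2 / (16 * m * K) :=
      div_le_div_of_nonneg_left (by norm_num) hw0 (hw1.trans hw2)
    have h3 : 1 / (L : ℝ) ≤ 1 / (8 * m * K) :=
      div_le_div_of_nonneg_left (by norm_num) (by linarith) hL1
    have h4 : 4 * m * (K * (2 / ((p ^ (w + 1) : ℕ) : ℝ) + 1 / L)) ≤
        4 * m * (K * (2 / (16 * m * K) + 1 / (8 * m * K))) := by
      refine mul_le_mul_of_nonneg_left ?_ (by linarith)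
      refine mul_le_mul_of_nonneg_left ?_ (by linarith)
      linarith
    have h5 : 4 * m * (K * (2 / (16 * m * K) + 1 / (8 * m * K))) = 1 := by
      have hK0 : K ≠ 0 := by linarith
      field_simp
      norm_num
    have h6 : (0 : ℝ) ≤ ((A i).card : ℝ) := Nat.cast_nonneg _
    calc 4 * (m : ℝ) * (((A i).filter fun a : ℤ => ((p ^ (d * w + 1) : ℕ) : ℤ) ∣ a).card : ℝ) ≤
          4 * m * (K * (2 / ((p ^ (w + 1) : ℕ) : ℝ) + 1 / L) * (A i).card) :=
          mul_le_mul_of_nonneg_left h1 (by linarith)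
      _ = (4 * m * (K * (2 / ((p ^ (w + 1) : ℕ) : ℝ) + 1 / L))) * (A i).card := by ring
      _ ≤ 1 * (A i).card := by
          refine mul_le_mul_of_nonneg_right ?_ h6
          exact h4.trans h5.le
      _ = (A i).card := one_mul _

/-- a nonconstant polynomial of degree at most `d` takes each value at most `d` times -/
lemma card_fiber (f : ℤ[X]) (d : ℕ) (h1 : 1 ≤ f.natDegree) (hd : f.natDegree ≤ d) (y : ℤ)
    (Q : Finset ℤ) (hQ : ∀ x ∈ Q, f.eval x = y) : Q.card ≤ d := by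
  have hne : f - C y ≠ 0 := by
    intro h
    have h2 : f = C y := by
      rw [sub_eq_zero] at h
      exact h
    rw [h2, natDegree_C] at h1
    omega
  have h2 : Q ⊆ (f - C y).roots.toFinset := by
    intro x hx
    rw [Multiset.mem_toFinset, mem_roots hne, IsRoot.def, eval_sub, eval_C, hQ x hx, sub_self]
  have h3 := (card_le_card h2).trans (Multiset.toFinset_card_le _)
  have h4 := h3.trans (card_roots' _)
  have h5 : (f - C y).natDegree = f.natDegree := natDegree_sub_C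
  omega

lemma card_le_image (f : ℤ[X]) (d : ℕ) (h1 : 1 ≤ f.natDegree) (hd : f.natDegree ≤ d)
    (B : Finset ℤ) : B.card ≤ d * (B.image fun b => f.eval b).card := by
  rw [card_eq_sum_card_image (fun b => f.eval b) B]
  refine (sum_le_card_nsmul _ _ d ?_).trans (le_of_eq ?_)
  · intro y _
    exact card_fiber f d h1 hd y _ fun x hx => (mem_filter.1 hx).2
  · rw [smul_eq_mul, mul_comm]

/-- `A` is the union of the value sets `f_j (I_j)` of primitive polynomials `f_j` of degree from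
`1` to `d` on intervals `I_j` of at least `L` integers, and each element lies in at most `D` of
these sets. -/
def LongRuns (d D L : ℕ) (A : Finset ℤ) : Prop :=
  ∃ (ι : Type) (I : Finset ι) (f : ι → ℤ[X]) (a : ι → ℤ) (n : ι → ℕ),
    (∀ j ∈ I, (f j).IsPrimitive ∧ 1 ≤ (f j).natDegree ∧ (f j).natDegree ≤ d ∧ L ≤ n j) ∧
    (∀ x, x ∈ A ↔ ∃ j ∈ I, ∃ t < n j, x = (f j).eval (a j + t)) ∧
    (∀ x ∈ A, (I.filter fun j => ∃ t < n j, x = (f j).eval (a j + t)).card ≤ D)

lemma longRuns_count (d D L : ℕ) (hd : 1 ≤ d) (hL : 1 ≤ L) (A : Finset ℤ)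
    (hA : LongRuns d D L A) {p : ℕ} (hp : p.Prime) (w : ℕ) :
    ((A.filter fun a : ℤ => ((p ^ (d * w + 1) : ℕ) : ℤ) ∣ a).card : ℝ) ≤
      ((d : ℝ) ^ 2 * D) * (2 / (p ^ (w + 1) : ℕ) + 1 / L) * A.card := by
  obtain ⟨ι, I, f, a, n, h1, h2, h3⟩ := hA
  set q : ℕ := p ^ (w + 1) with hq
  have hq0 : (0 : ℝ) < q := by exact_mod_cast (pow_pos hp.pos _ : 0 < p ^ (w + 1))
  have hLr : (0 : ℝ) < L := by exact_mod_cast hL
  -- the intervals and their images
  let J : ι → Finset ℤ := fun j => (range (n j)).image fun t : ℕ => a j + (t : ℤ)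
  let V : ι → Finset ℤ := fun j => (J j).image fun x => (f j).eval x
  have hJc : ∀ j, (J j).card = n j := by
    intro j
    rw [card_image_of_injective, card_range]
    intro s t hst
    have : (s : ℤ) = t := add_left_cancel hst
    exact_mod_cast this
  have hV : ∀ j x, x ∈ V j ↔ ∃ t < n j, x = (f j).eval (a j + t) := by
    intro j x
    simp only [V, J, mem_image, mem_range]
    constructor
    · rintro ⟨y, ⟨t, ht, rfl⟩, rfl⟩
      exact ⟨t, ht, rfl⟩
    · rintro ⟨t, ht, rfl⟩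
      exact ⟨_, ⟨t, ht, rfl⟩, rfl⟩
  have hsum : ∑ j ∈ I, (n j : ℝ) ≤ d * (D * A.card) := by
    have e1 : ∀ j ∈ I, (n j : ℝ) ≤ d * ∑ x ∈ A, if x ∈ V j then (1 : ℝ) else 0 := by
      intro j hj
      have e2 := card_le_image (f j) d (h1 j hj).2.1 (h1 j hj).2.2.1 (J j)
      rw [hJc] at e2
      have e3 : (∑ x ∈ A, if x ∈ V j then (1 : ℝ) else 0) = (V j).card := by
        rw [← sum_filter, sum_const, nsmul_eq_mul, mul_one]
        congr 2
        ext x
        rw [mem_filter]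
        exact ⟨fun hx => hx.2, fun hx => ⟨(h2 x).2 ⟨j, hj, (hV j x).1 hx⟩, hx⟩⟩
      rw [e3]
      exact_mod_cast e2
    refine (sum_le_sum e1).trans ?_
    rw [← mul_sum, sum_comm]
    refine mul_le_mul_of_nonneg_left ?_ (Nat.cast_nonneg _)
    have e2 : ∀ x ∈ A, (∑ j ∈ I, if x ∈ V j then (1 : ℝ) else 0) ≤ D := by
      intro x hx
      rw [← sum_filter, sum_const, nsmul_eq_mul, mul_one]
      have e3 := h3 x hx
      have e4 : (I.filter fun j => x ∈ V j) = I.filter fun j => ∃ t < n j,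
          x = (f j).eval (a j + t) := filter_congr fun j _ => hV j x
      rw [e4]
      exact_mod_cast e3
    refine (sum_le_sum e2).trans ?_
    rw [sum_const, nsmul_eq_mul]
    linarith
  have hcov : (A.filter fun x : ℤ => ((p ^ (d * w + 1) : ℕ) : ℤ) ∣ x) ⊆
      I.biUnion fun j => ((J j).filter fun x : ℤ => ((p ^ (d * w + 1) : ℕ) : ℤ) ∣
        (f j).eval x).image fun x => (f j).eval x := by
    intro x hx
    rw [mem_filter] at hx
    obtain ⟨j, hj, t, ht, rfl⟩ := (h2 x).1 hx.1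
    rw [mem_biUnion]
    refine ⟨j, hj, mem_image.2 ⟨a j + t, mem_filter.2 ⟨?_, hx.2⟩, rfl⟩⟩
    exact mem_image.2 ⟨t, mem_range.2 ht, rfl⟩
  have hcov2 : ((A.filter fun x : ℤ => ((p ^ (d * w + 1) : ℕ) : ℤ) ∣ x).card : ℝ) ≤
      ∑ j ∈ I, (d : ℝ) * (2 * n j / q + 1) := by
    have e1 : ((A.filter fun x : ℤ => ((p ^ (d * w + 1) : ℕ) : ℤ) ∣ x).card : ℝ) ≤ ∑ j ∈ I,
        ((((J j).filter fun x : ℤ => ((p ^ (d * w + 1) : ℕ) : ℤ) ∣
        (f j).eval x).image fun x => (f j).eval x).card : ℝ) := by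
      exact_mod_cast (card_le_card hcov).trans card_biUnion_le
    refine e1.trans (sum_le_sum fun j hj => ?_)
    have e2 : ((((J j).filter fun x : ℤ => ((p ^ (d * w + 1) : ℕ) : ℤ) ∣
        (f j).eval x).image fun x => (f j).eval x).card : ℝ) ≤
        ((J j).filter fun x : ℤ => ((p ^ (d * w + 1) : ℕ) : ℤ) ∣ (f j).eval x).card := by
      exact_mod_cast card_image_le
    refine e2.trans (card_poly hp w d (f j) (h1 j hj).1 (h1 j hj).2.2.1 (a j) (n j) _ ?_)
    intro x hx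
    rw [mem_filter] at hx
    obtain ⟨t, ht, rfl⟩ := mem_image.1 hx.1
    rw [mem_range] at ht
    refine ⟨hx.2, ?_, ?_⟩
    · have : (0 : ℤ) < n j := by exact_mod_cast (by omega : 0 < n j)
      have := Int.natCast_nonneg t
      linarith
    · have : (t : ℤ) < n j := by exact_mod_cast ht
      linarith
  refine hcov2.trans ?_
  have hone : ∀ j ∈ I, (d : ℝ) * (2 * n j / q + 1) ≤ (d * (2 / q + 1 / L)) * n j := by
    intro j hj
    have e1 : (L : ℝ) ≤ n j := by exact_mod_cast (h1 j hj).2.2.2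
    have e2 : (1 : ℝ) ≤ 1 / L * n j := by
      rw [one_div, ← div_eq_inv_mul, le_div_iff₀ hLr]
      linarith
    have e3 : (2 * n j / q : ℝ) = 2 / q * n j := by ring
    rw [e3, mul_assoc]
    refine mul_le_mul_of_nonneg_left ?_ (Nat.cast_nonneg _)
    rw [add_mul]
    linarith
  refine (sum_le_sum hone).trans ?_
  rw [← mul_sum]
  have e5 : (0 : ℝ) ≤ d * (2 / q + 1 / L) := by positivity
  refine (mul_le_mul_of_nonneg_left hsum e5).trans (le_of_eq ?_)
  ring

/-- **Unions of long runs of polynomial values.** -/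
theorem longRuns {k : ℕ} (hk : 1 ≤ k) (d D : ℕ) (hd : 1 ≤ d) (hD : 1 ≤ D) (ε : ℝ) (hε : 0 < ε)
    (hε1 : ε ≤ 1) :
    ∃ (L : ℕ) (c : ℝ), 1 ≤ L ∧ 0 < c ∧ ∀ A : Fin k → Finset ℤ, (∀ i, (A i).Nonempty) →
      (∀ i, LongRuns d D L (A i)) →
      c * (∏ i, ((A i).card : ℝ)) ^ (1 - ε) ≤ (pks A).card := by
  have hdr : (1 : ℝ) ≤ d := by exact_mod_cast hd
  have hDr : (1 : ℝ) ≤ D := by exact_mod_cast hD
  obtain ⟨L, c, hL, hc, h⟩ := crit2 hk d ((d : ℝ) ^ 2 * D) ε (by nlinarith) hε hε1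
  exact ⟨L, c, hL, hc, fun A hA hr => h A hA fun i p hp w =>
    longRuns_count d D L hd hL (A i) (hr i) hp w⟩

lemma run_of_shift' (S : Finset ℤ) (L : ℕ) :
    ∀ a ∈ (S ×ˢ range L).image (fun s => s.1 + (s.2 : ℤ)), ∃ b : ℤ, b ≤ a ∧ a < b + L ∧
      Ico b (b + L) ⊆ (S ×ˢ range L).image (fun s => s.1 + (s.2 : ℤ)) := by
  intro a ha
  obtain ⟨s, hs, rfl⟩ := mem_image.1 ha
  rw [mem_product, mem_range] at hs
  refine ⟨s.1, by linarith [Int.natCast_nonneg s.2], by
    have : (s.2 : ℤ) < L := by exact_mod_cast hs.2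
    linarith, ?_⟩
  intro y hy
  rw [mem_Ico] at hy
  refine mem_image.2 ⟨(s.1, (y - s.1).toNat), mem_product.2 ⟨hs.1, mem_range.2 ?_⟩, ?_⟩
  · have : ((y - s.1).toNat : ℤ) < L := by
      rw [Int.toNat_of_nonneg (by linarith)]
      linarith
    exact_mod_cast this
  · show s.1 + ((y - s.1).toNat : ℤ) = y
    rw [Int.toNat_of_nonneg (by linarith)]
    ring

/-- **Shifts.** -/
theorem polyShifts {k : ℕ} (hk : 1 ≤ k) (d : ℕ) (hd : 1 ≤ d) (ε : ℝ) (hε : 0 < ε)
    (hε1 : ε ≤ 1) :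
    ∃ (L : ℕ) (c : ℝ), 0 < c ∧ ∀ (f : Fin k → ℤ[X]) (S : Fin k → Finset ℤ),
      (∀ i, (f i).IsPrimitive ∧ 1 ≤ (f i).natDegree ∧ (f i).natDegree ≤ d) →
      (∀ i, (S i).Nonempty) → ∃ t : Fin k → ℕ, (∀ i, t i < L) ∧
      c * (∏ i, ((S i).card : ℝ)) ^ (1 - ε) ≤
        (((Fintype.piFinset S).image fun s => ∏ i, (f i).eval (s i + (t i : ℤ))).card : ℝ) := by
  have hdr : (1 : ℝ) ≤ d := by exact_mod_cast hd
  obtain ⟨L, c, hL, hc, h⟩ := crit2 hk d ((d : ℝ) ^ 2) ε (by nlinarith) hε hε1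
  have hLr : (0 : ℝ) < L := by exact_mod_cast hL
  have hdk : (0 : ℝ) < (d : ℝ) ^ k := pow_pos (by linarith) k
  have hLk : (0 : ℝ) < (L : ℝ) ^ k := pow_pos hLr k
  refine ⟨L, c / d ^ k / L ^ k, by positivity, fun f S hf hS => ?_⟩
  set B : Fin k → Finset ℤ := fun i => (S i ×ˢ range L).image fun s => s.1 + (s.2 : ℤ) with hB
  set A : Fin k → Finset ℤ := fun i => (B i).image fun b => (f i).eval b with hA
  have hSB : ∀ i, S i ⊆ B i := by
    intro i s hs
    exact mem_image.2 ⟨(s, 0), mem_product.2 ⟨hs, mem_range.2 hL⟩, by simp⟩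
  have hBn : ∀ i, (B i).Nonempty := fun i => (hS i).mono (hSB i)
  have hAn : ∀ i, (A i).Nonempty := fun i => (hBn i).image _
  have hBA : ∀ i, ((B i).card : ℝ) ≤ d * (A i).card := by
    intro i
    exact_mod_cast card_le_image (f i) d (hf i).2.1 (hf i).2.2 (B i)
  have h1 := h A hAn (by
    intro i p hp w
    have e1 : (((A i).filter fun a : ℤ => ((p ^ (d * w + 1) : ℕ) : ℤ) ∣ a).card : ℝ) ≤
        ((B i).filter fun b : ℤ => ((p ^ (d * w + 1) : ℕ) : ℤ) ∣ (f i).eval b).card := by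
      have e2 : ((A i).filter fun a : ℤ => ((p ^ (d * w + 1) : ℕ) : ℤ) ∣ a) ⊆
          ((B i).filter fun b : ℤ => ((p ^ (d * w + 1) : ℕ) : ℤ) ∣ (f i).eval b).image
            fun b => (f i).eval b := by
        intro x hx
        rw [mem_filter] at hx
        obtain ⟨b, hb, rfl⟩ := mem_image.1 hx.1
        exact mem_image.2 ⟨b, mem_filter.2 ⟨hb, hx.2⟩, rfl⟩
      exact_mod_cast (card_le_card e2).trans card_image_le
    refine e1.trans ((poly_runs hp w d (f i) (hf i).1 (hf i).2.2 (B i) L hL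
      (run_of_shift' (S i) L)).trans ?_)
    have e3 : (0 : ℝ) ≤ d * (2 / (p ^ (w + 1) : ℕ) + 1 / L) := by positivity
    calc (d : ℝ) * (2 / (p ^ (w + 1) : ℕ) + 1 / L) * (B i).card ≤
          d * (2 / (p ^ (w + 1) : ℕ) + 1 / L) * (d * (A i).card) :=
          mul_le_mul_of_nonneg_left (hBA i) e3
      _ = (d : ℝ) ^ 2 * (2 / (p ^ (w + 1) : ℕ) + 1 / L) * (A i).card := by ring)
  have h2 : (∏ i, ((S i).card : ℝ)) ≤ d ^ k * ∏ i, ((A i).card : ℝ) := by
    have e1 : ∏ i, ((S i).card : ℝ) ≤ ∏ i, (d * ((A i).card : ℝ)) := by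
      refine prod_le_prod (fun i _ => Nat.cast_nonneg _) fun i _ => ?_
      refine le_trans ?_ (hBA i)
      exact_mod_cast card_le_card (hSB i)
    rwa [prod_mul_distrib, prod_const, card_univ, Fintype.card_fin] at e1
  have hSpos : (0 : ℝ) < ∏ i, ((S i).card : ℝ) := prod_pos fun i _ => by
    exact_mod_cast card_pos.2 (hS i)
  have hApos : (0 : ℝ) < ∏ i, ((A i).card : ℝ) := prod_pos fun i _ => by
    exact_mod_cast card_pos.2 (hAn i)
  have h3 : (∏ i, ((S i).card : ℝ)) ^ (1 - ε) / d ^ k ≤ (∏ i, ((A i).card : ℝ)) ^ (1 - ε) := by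
    rw [div_le_iff₀ hdk]
    have e1 : (∏ i, ((S i).card : ℝ)) ^ (1 - ε) ≤ (d ^ k * ∏ i, ((A i).card : ℝ)) ^ (1 - ε) :=
      Real.rpow_le_rpow hSpos.le h2 (by linarith)
    rw [Real.mul_rpow hdk.le hApos.le] at e1
    have e2 : ((d : ℝ) ^ k) ^ (1 - ε) ≤ (d : ℝ) ^ k := by
      have : ((d : ℝ) ^ k) ^ (1 - ε) ≤ ((d : ℝ) ^ k) ^ (1 : ℝ) :=
        Real.rpow_le_rpow_of_exponent_le (one_le_pow₀ hdr) (by linarith)
      rwa [Real.rpow_one] at this
    have e3 := mul_le_mul_of_nonneg_right e2 (Real.rpow_nonneg hApos.le (1 - ε))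
    linarith
  -- covering
  have h4 : pks A ⊆ (Fintype.piFinset fun _ : Fin k => range L).biUnion fun t =>
      (Fintype.piFinset S).image fun s => ∏ i, (f i).eval (s i + (t i : ℤ)) := by
    intro v hv
    obtain ⟨g, hg, rfl⟩ := mem_image.1 hv
    rw [Fintype.mem_piFinset] at hg
    have hg' : ∀ i, ∃ s : ℤ × ℕ, s ∈ S i ×ˢ range L ∧ (f i).eval (s.1 + (s.2 : ℤ)) = g i := by
      intro i
      obtain ⟨b, hb1, hb2⟩ := mem_image.1 (hg i)
      obtain ⟨s, hs1, hs2⟩ := mem_image.1 hb1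
      exact ⟨s, hs1, by rw [hs2]; exact hb2⟩
    choose s hs1 hs2 using hg'
    rw [mem_biUnion]
    refine ⟨fun i => (s i).2, Fintype.mem_piFinset.2 fun i => (mem_product.1 (hs1 i)).2, ?_⟩
    refine mem_image.2 ⟨fun i => (s i).1, Fintype.mem_piFinset.2 fun i =>
      (mem_product.1 (hs1 i)).1, ?_⟩
    exact prod_congr rfl fun i _ => hs2 i
  have h5 : ((pks A).card : ℝ) ≤ ∑ t ∈ Fintype.piFinset fun _ : Fin k => range L,
      (((Fintype.piFinset S).image fun s => ∏ i, (f i).eval (s i + (t i : ℤ))).card : ℝ) := by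
    exact_mod_cast (card_le_card h4).trans card_biUnion_le
  by_contra hcon
  push Not at hcon
  have h6 : ∑ t ∈ Fintype.piFinset fun _ : Fin k => range L,
      (((Fintype.piFinset S).image fun s => ∏ i, (f i).eval (s i + (t i : ℤ))).card : ℝ) <
      ∑ t ∈ Fintype.piFinset fun _ : Fin k => range L,
        c / d ^ k / L ^ k * (∏ i, ((S i).card : ℝ)) ^ (1 - ε) := by
    refine sum_lt_sum_of_nonempty ?_ ?_
    · exact ⟨fun _ => 0, Fintype.mem_piFinset.2 fun _ => mem_range.2 hL⟩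
    · intro t ht
      rw [Fintype.mem_piFinset] at ht
      exact hcon t fun i => mem_range.1 (ht i)
  rw [sum_const, nsmul_eq_mul, Fintype.card_piFinset, prod_const, card_range, card_univ,
    Fintype.card_fin] at h6
  push_cast at h6
  have h7 : (L : ℝ) ^ k * (c / d ^ k / L ^ k * (∏ i, ((S i).card : ℝ)) ^ (1 - ε)) =
      c * ((∏ i, ((S i).card : ℝ)) ^ (1 - ε) / d ^ k) := by
    field_simp
  rw [h7] at h6
  have h8 := mul_le_mul_of_nonneg_left h3 hc.le
  linarith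

end Pool.Agent.Q247.KP
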